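import Pool.Agent.H979.BK.Stm

/-!
# S_SYM: the symmetrized gap
-/

set_option autoImplicit false

open Filter Topology Finset Pool.Agent.H979.BK

namespace Pool.Agent.H233

namespace BKSYM

/-- the Dirichlet form -/
noncomputable def Q {d : ℕ} (μ : Equiv.Perm (Fin d) → ℝ) (y : Fin d → ℝ) : ℝ :=
  ∑ σ, μ σ * ∑ i, (y i - y (σ i)) ^ 2

theorem mulVec_eq {d : ℕ} (μ : Equiv.Perm (Fin d) → ℝ) (y : Fin d → ℝ) (i : Fin d) :
    (U μ).mulVec y i = ∑ σ, μ σ * y (σ i) := by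
  show ∑ j, (∑ σ : Equiv.Perm (Fin d), if σ i = j then μ σ else 0) * y j = _
  have h : ∀ j, (∑ σ : Equiv.Perm (Fin d), if σ i = j then μ σ else 0) * y j =
      ∑ σ : Equiv.Perm (Fin d), if σ i = j then μ σ * y j else 0 := by
    intro j
    rw [Finset.sum_mul]
    refine Finset.sum_congr rfl fun σ _ => ?_
    rw [ite_mul, zero_mul]
  rw [Finset.sum_congr rfl fun j _ => h j, Finset.sum_comm]
  refine Finset.sum_congr rfl fun σ _ => ?_
  rw [Finset.sum_ite_eq]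
  simp

theorem Q_eq {d : ℕ} {μ : Equiv.Perm (Fin d) → ℝ} (hμ : IsProb μ) (y : Fin d → ℝ) :
    Q μ y = 2 * (∑ i, y i ^ 2 - ∑ i, y i * (U μ).mulVec y i) := by
  have h1 : ∑ i, y i * (U μ).mulVec y i = ∑ σ, μ σ * ∑ i, y i * y (σ i) := by
    have h : ∀ i, y i * (U μ).mulVec y i = ∑ σ, μ σ * (y i * y (σ i)) := by
      intro i
      rw [mulVec_eq, Finset.mul_sum]
      refine Finset.sum_congr rfl fun σ _ => ?_
      ring
    rw [Finset.sum_congr rfl fun i _ => h i, Finset.sum_comm]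
    refine Finset.sum_congr rfl fun σ _ => ?_
    rw [Finset.mul_sum]
  have h2 : ∀ σ : Equiv.Perm (Fin d), ∑ i, (y i - y (σ i)) ^ 2 =
      2 * ∑ i, y i ^ 2 - 2 * ∑ i, y i * y (σ i) := by
    intro σ
    have h3 : ∑ i, y (σ i) ^ 2 = ∑ i, y i ^ 2 := Equiv.sum_comp σ fun i => y i ^ 2
    have h4 : ∑ i, (y i - y (σ i)) ^ 2 =
        ∑ i, y i ^ 2 + ∑ i, y (σ i) ^ 2 - 2 * ∑ i, y i * y (σ i) := by
      rw [Finset.mul_sum, ← Finset.sum_add_distrib, ← Finset.sum_sub_distrib]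
      refine Finset.sum_congr rfl fun i _ => ?_
      ring
    rw [h4, h3]
    ring
  unfold Q
  rw [h1]
  have h5 : ∑ σ, μ σ * ∑ i, (y i - y (σ i)) ^ 2 =
      ∑ σ, (μ σ * (2 * ∑ i, y i ^ 2) - 2 * (μ σ * ∑ i, y i * y (σ i))) := by
    refine Finset.sum_congr rfl fun σ _ => ?_
    rw [h2]
    ring
  rw [h5, Finset.sum_sub_distrib, ← Finset.sum_mul, ← Finset.mul_sum, hμ.2]
  ring

theorem U_nonneg {d : ℕ} {μ : Equiv.Perm (Fin d) → ℝ} (hμ : IsProb μ) (i j : Fin d) :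
    0 ≤ U μ i j :=
  Finset.sum_nonneg fun σ _ => by
    split_ifs
    · exact hμ.1 σ
    · exact le_refl _

theorem pow_nonneg' {d : ℕ} {μ : Equiv.Perm (Fin d) → ℝ} (hμ : IsProb μ) (r : ℕ) :
    ∀ i j : Fin d, 0 ≤ (U μ ^ r) i j := by
  induction r with
  | zero =>
    intro i j
    rw [pow_zero, Matrix.one_apply]
    split_ifs <;> norm_num
  | succ r ih =>
    intro i j
    rw [pow_succ, Matrix.mul_apply]
    exact Finset.sum_nonneg fun l _ => mul_nonneg (ih i l) (U_nonneg hμ l j)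

/-- a vector fixed by all the permutations in the support is constant -/
theorem const_of {d : ℕ} {μ : Equiv.Perm (Fin d) → ℝ} (hμ : IsProb μ) (y : Fin d → ℝ)
    (hy : ∀ σ, 0 < μ σ → ∀ i, y i = y (σ i)) (r : ℕ) :
    ∀ i j : Fin d, 0 < (U μ ^ r) i j → y i = y j := by
  induction r with
  | zero =>
    intro i j h
    rw [pow_zero, Matrix.one_apply] at h
    by_cases hij : i = j
    · rw [hij]
    · rw [if_neg hij] at h
      exact absurd h (lt_irrefl _)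
  | succ r ih =>
    intro i j h
    rw [pow_succ, Matrix.mul_apply] at h
    obtain ⟨l, _, hl⟩ := Finset.exists_lt_of_sum_lt
      (by simpa using h : ∑ _l : Fin d, (0 : ℝ) < ∑ l, (U μ ^ r) i l * U μ l j)
    have h1 : 0 < (U μ ^ r) i l := by
      rcases (pow_nonneg' hμ r i l).eq_or_lt with h2 | h2
      · rw [← h2, zero_mul] at hl
        exact absurd hl (lt_irrefl _)
      · exact h2
    have h3 : 0 < U μ l j := (mul_pos_iff_of_pos_left h1).1 hl
    have h4 : ∑ _σ : Equiv.Perm (Fin d), (0 : ℝ) <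
        ∑ σ : Equiv.Perm (Fin d), if σ l = j then μ σ else 0 := by
      rw [Finset.sum_const_zero]
      exact h3
    obtain ⟨σ, _, hσ⟩ := Finset.exists_lt_of_sum_lt h4
    by_cases hj : σ l = j
    · rw [if_pos hj] at hσ
      rw [ih i l h1, hy σ hσ l, hj]
    · rw [if_neg hj] at hσ
      exact absurd hσ (lt_irrefl _)

theorem Q_nonneg {d : ℕ} {μ : Equiv.Perm (Fin d) → ℝ} (hμ : IsProb μ) (y : Fin d → ℝ) :
    0 ≤ Q μ y :=
  Finset.sum_nonneg fun σ _ => mul_nonneg (hμ.1 σ) (Finset.sum_nonneg fun _ _ => sq_nonneg _)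

theorem Q_pos {d : ℕ} {μ : Equiv.Perm (Fin d) → ℝ} (hμ : IsProb μ) (hI : Irred μ)
    (y : Fin d → ℝ) (h0 : ∑ i, y i = 0) (h1 : ∑ i, y i ^ 2 = 1) : 0 < Q μ y := by
  refine lt_of_le_of_ne (Q_nonneg hμ y) fun hQ => ?_
  have h2 := (Finset.sum_eq_zero_iff_of_nonneg (fun σ _ =>
    mul_nonneg (hμ.1 σ) (Finset.sum_nonneg fun i _ => sq_nonneg _))).1 hQ.symm
  have h3 : ∀ σ, 0 < μ σ → ∀ i, y i = y (σ i) := by
    intro σ hσ i
    have h4 := h2 σ (Finset.mem_univ _)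
    have h5 : ∑ i, (y i - y (σ i)) ^ 2 = 0 := by
      rcases mul_eq_zero.1 h4 with h | h
      · exact absurd h hσ.ne'
      · exact h
    have h6 := (Finset.sum_eq_zero_iff_of_nonneg (fun i _ => sq_nonneg _)).1 h5 i
      (Finset.mem_univ _)
    have h7 : y i - y (σ i) = 0 := pow_eq_zero_iff (two_ne_zero) |>.1 h6
    linarith
  have h8 : ∀ i j, y i = y j := by
    intro i j
    obtain ⟨r, hr⟩ := hI i j
    exact const_of hμ y h3 r i j hr
  have h9 : ∀ i, y i = 0 := by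
    intro i
    have h10 : ∑ j, y j = ∑ _j : Fin d, y i := Finset.sum_congr rfl fun j _ => h8 j i
    rw [h0, Finset.sum_const, Finset.card_univ, Fintype.card_fin, nsmul_eq_mul] at h10
    rcases mul_eq_zero.1 h10.symm with h | h
    · have hd : d = 0 := by exact_mod_cast h
      subst hd
      exact i.elim0
    · exact h
  have h11 : ∑ i, y i ^ 2 = 0 := Finset.sum_eq_zero fun i _ => by rw [h9 i]; norm_num
  rw [h1] at h11
  norm_num at h11

theorem Q_cont {d : ℕ} (μ : Equiv.Perm (Fin d) → ℝ) : Continuous (Q μ) := by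
  unfold Q
  fun_prop

theorem K_compact (d : ℕ) : IsCompact {y : Fin d → ℝ | ∑ i, y i = 0 ∧ ∑ i, y i ^ 2 = 1} := by
  have hc : IsClosed {y : Fin d → ℝ | ∑ i, y i = 0 ∧ ∑ i, y i ^ 2 = 1} := by
    apply IsClosed.and
    · exact isClosed_eq (by fun_prop) continuous_const
    · exact isClosed_eq (by fun_prop) continuous_const
  refine Metric.isCompact_of_isClosed_isBounded hc ?_
  refine (Metric.isBounded_closedBall (x := (0 : Fin d → ℝ)) (r := 1)).subset ?_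
  intro y hy
  rw [mem_closedBall_zero_iff, pi_norm_le_iff_of_nonneg zero_le_one]
  intro i
  have h1 : y i ^ 2 ≤ ∑ i, y i ^ 2 :=
    Finset.single_le_sum (f := fun i => y i ^ 2) (fun j _ => sq_nonneg _) (Finset.mem_univ i)
  rw [hy.2] at h1
  rw [Real.norm_eq_abs]
  exact abs_le_one_iff_mul_self_le_one.2 (by nlinarith)

theorem Q_smul {d : ℕ} (μ : Equiv.Perm (Fin d) → ℝ) (c : ℝ) (y : Fin d → ℝ) :
    Q μ (fun i => c * y i) = c ^ 2 * Q μ y := by
  unfold Q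
  rw [Finset.mul_sum]
  refine Finset.sum_congr rfl fun σ _ => ?_
  have h : ∑ i, (c * y i - c * y (σ i)) ^ 2 = c ^ 2 * ∑ i, (y i - y (σ i)) ^ 2 := by
    rw [Finset.mul_sum]
    refine Finset.sum_congr rfl fun i _ => ?_
    ring
  rw [h]
  ring

end BKSYM

open BKSYM in
theorem bk_sym : S_SYM := by
  intro d μ _ hμ hI
  have hc : ∃ c : ℝ, 0 < c ∧ ∀ y : Fin d → ℝ, ∑ i, y i = 0 → ∑ i, y i ^ 2 = 1 → c ≤ Q μ y := by
    rcases Set.eq_empty_or_nonempty {y : Fin d → ℝ | ∑ i, y i = 0 ∧ ∑ i, y i ^ 2 = 1} with h | h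
    · refine ⟨1, one_pos, fun y h0 h1 => ?_⟩
      have h2 : y ∈ {y : Fin d → ℝ | ∑ i, y i = 0 ∧ ∑ i, y i ^ 2 = 1} := ⟨h0, h1⟩
      rw [h] at h2
      exact absurd h2 (Set.notMem_empty y)
    · obtain ⟨y0, hy0, hmin⟩ := (K_compact d).exists_isMinOn h (Q_cont μ).continuousOn
      exact ⟨Q μ y0, Q_pos hμ hI y0 hy0.1 hy0.2, fun y h0 h1 => hmin ⟨h0, h1⟩⟩
  obtain ⟨c, hc0, hc⟩ := hc
  refine ⟨c / 2, by positivity, fun y hy => ?_⟩
  have hS0 : 0 ≤ ∑ i, y i ^ 2 := Finset.sum_nonneg fun i _ => sq_nonneg _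
  have hQe := Q_eq hμ y
  have hmain : c * ∑ i, y i ^ 2 ≤ Q μ y := by
    rcases hS0.eq_or_lt with h | h
    · rw [← h, mul_zero]
      exact Q_nonneg hμ y
    · obtain ⟨s, hs⟩ : ∃ s : ℝ, s = √(∑ i, y i ^ 2) := ⟨_, rfl⟩
      have hs0 : 0 < s := by rw [hs]; exact Real.sqrt_pos.2 h
      have hs2 : s ^ 2 = ∑ i, y i ^ 2 := by rw [hs]; exact Real.sq_sqrt hS0
      have h1 : ∑ i, (s⁻¹ * y i) = 0 := by rw [← Finset.mul_sum, hy, mul_zero]
      have h2 : ∑ i, (s⁻¹ * y i) ^ 2 = 1 := by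
        have h3 : ∑ i, (s⁻¹ * y i) ^ 2 = (s⁻¹) ^ 2 * ∑ i, y i ^ 2 := by
          rw [Finset.mul_sum]
          refine Finset.sum_congr rfl fun i _ => ?_
          ring
        rw [h3, ← hs2, ← mul_pow, inv_mul_cancel₀ hs0.ne', one_pow]
      have h4 := hc (fun i => s⁻¹ * y i) h1 h2
      rw [Q_smul] at h4
      have h5 := mul_le_mul_of_nonneg_left h4 (sq_nonneg s)
      have h6 : s ^ 2 * ((s⁻¹) ^ 2 * Q μ y) = Q μ y := by
        rw [← mul_assoc, ← mul_pow, mul_inv_cancel₀ hs0.ne', one_pow, one_mul]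
      rw [h6, hs2] at h5
      linarith
  linarith

end Pool.Agent.H233
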