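import Pool.Agent.H812.Gi.Spec

/-!
# Project GI, part `GGap`: distance of zeros of level functions
-/

set_option autoImplicit false

open Real Filter Topology Set MeasureTheory
open scoped ContDiff ENNReal

namespace Pool.Agent.H233.Gi

open Pool.Agent.W811.Stu Pool.Agent.H812.Tm Pool.Agent.H812.Gi

/-- the statement in one variable -/
theorem oneD {g g' g'' : ℝ → ℝ} {c D : ℝ} (hc : 0 < c) (hD : 0 < D)
    (h1 : ∀ s, HasDerivAt g (g' s) s) (h2 : ∀ s, HasDerivAt g' (g'' s) s)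
    (h3 : ∀ s, |g s| < c → g' s ≠ 0)
    (h4 : ∀ s, |g s| < c → |g'' s| * (c - |g s|) ≤ g' s ^ 2) (h0 : g 0 = 0) (hD0 : g D = 0) :
    c / 4 ≤ D * |g' 0| := by
  have hgc : Continuous g := continuous_iff_continuousAt.2 fun s => (h1 s).continuousAt
  have hg'c : Continuous g' := continuous_iff_continuousAt.2 fun s => (h2 s).continuousAt
  obtain ⟨s1, hs1, hs1'⟩ := exists_hasDerivAt_eq_zero hD hgc.continuousOn (h0.trans hD0.symm)
    (fun x _ => h1 x)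
  have hs1c : c ≤ |g s1| := by
    by_contra h
    push Not at h
    exact h3 s1 h hs1'
  have hK : IsCompact (Icc 0 s1 ∩ {s | c / 2 ≤ |g s|}) :=
    isCompact_Icc.inter_right (isClosed_le continuous_const hgc.abs)
  have hne : (Icc 0 s1 ∩ {s | c / 2 ≤ |g s|}).Nonempty :=
    ⟨s1, right_mem_Icc.2 hs1.1.le, by
      show c / 2 ≤ |g s1|
      linarith⟩
  obtain ⟨t, ⟨ht1, ht2⟩, hmin⟩ := hK.exists_isLeast hne
  have ht2' : c / 2 ≤ |g t| := ht2
  have hlt : ∀ s, 0 ≤ s → s < t → |g s| < c / 2 := by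
    intro s hs0 hst
    by_contra hcon
    push Not at hcon
    have := hmin ⟨⟨hs0, hst.le.trans ht1.2⟩, hcon⟩
    exact absurd hst (not_lt.2 this)
  have ht0 : 0 < t := by
    rcases eq_or_lt_of_le ht1.1 with h | h
    · exfalso
      rw [← h, h0, abs_zero] at ht2'
      linarith
    · exact h
  have hg0 : g' 0 ≠ 0 := h3 0 (by rw [h0, abs_zero]; exact hc)
  have hg0' : 0 < |g' 0| := abs_pos.2 hg0
  -- mean value theorem for `g`
  obtain ⟨ξ, hξ, hξ'⟩ := exists_hasDerivAt_eq_slope g g' ht0 hgc.continuousOn (fun x _ => h1 x)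
  rw [h0, sub_zero, sub_zero] at hξ'
  have hgt : |g t| = |g' ξ| * t := by
    rw [hξ', abs_div, abs_of_pos ht0]
    field_simp
  have hne' : ∀ s, 0 ≤ s → s < t → g' s ≠ 0 := fun s hs hs' =>
    h3 s (by have := hlt s hs hs'; linarith)
  -- mean value theorem for `1 / g'`
  obtain ⟨ζ, hζ, hζ'⟩ := exists_hasDerivAt_eq_slope (fun s => (g' s)⁻¹)
    (fun s => -g'' s / (g' s) ^ 2) hξ.1
    (hg'c.continuousOn.inv₀ fun s hs => hne' s hs.1 (hs.2.trans_lt hξ.2))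
    (fun x hx => (h2 x).inv (hne' x hx.1.le (hx.2.trans hξ.2)))
  have hζt : ζ < t := hζ.2.trans hξ.2
  have hζ0 : g' ζ ≠ 0 := hne' ζ hζ.1.le hζt
  have hbd : |-g'' ζ / (g' ζ) ^ 2| ≤ 2 / c := by
    have h5 := h4 ζ (by have := hlt ζ hζ.1.le hζt; linarith)
    have h6 := hlt ζ hζ.1.le hζt
    have h7 : 0 < g' ζ ^ 2 := by positivity
    rw [abs_div, abs_neg, abs_of_pos h7, div_le_div_iff₀ h7 hc]
    have h8 : |g'' ζ| * (c / 2) ≤ |g'' ζ| * (c - |g ζ|) :=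
      mul_le_mul_of_nonneg_left (by linarith) (abs_nonneg _)
    linarith
  have hdiff : |(g' ξ)⁻¹ - (g' 0)⁻¹| ≤ 2 / c * ξ := by
    rw [hζ', sub_zero, abs_div, abs_of_pos hξ.1, div_le_iff₀ hξ.1] at hbd
    exact hbd
  have hξ0 : g' ξ ≠ 0 := hne' ξ hξ.1.le hξ.2
  have hξ0' : 0 < |g' ξ| := abs_pos.2 hξ0
  by_contra hcon
  push Not at hcon
  have htD : t ≤ D := ht1.2.trans hs1.2.le
  have h5 : t * |g' 0| < c / 4 := lt_of_le_of_lt (mul_le_mul_of_nonneg_right htD hg0'.le) hcon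
  have h6 : |(g' 0)⁻¹| - |(g' ξ)⁻¹| ≤ 2 / c * t := by
    have h7 : |(g' 0)⁻¹| - |(g' ξ)⁻¹| ≤ |(g' 0)⁻¹ - (g' ξ)⁻¹| := abs_sub_abs_le_abs_sub _ _
    rw [abs_sub_comm] at h7
    have h8 : 2 / c * ξ ≤ 2 / c * t := mul_le_mul_of_nonneg_left hξ.2.le (by positivity)
    linarith
  rw [abs_inv, abs_inv] at h6
  -- `2 / c * t < 1 / (2 |g' 0|)`
  have h7 : 2 / c * t < |g' 0|⁻¹ / 2 := by
    rw [div_mul_eq_mul_div, div_lt_div_iff₀ hc (by norm_num), inv_mul_eq_div, lt_div_iff₀ hg0']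
    nlinarith
  have h8 : |g' 0|⁻¹ / 2 < |g' ξ|⁻¹ := by linarith
  have h9 : |g' ξ| < 2 * |g' 0| := by
    rw [div_lt_iff₀ (by norm_num), inv_lt_iff_one_lt_mul₀ hg0'] at h8
    have h10 := mul_lt_mul_of_pos_right h8 hξ0'
    have h11 : |g' 0| * (|g' ξ|⁻¹ * 2) * |g' ξ| = 2 * |g' 0| := by
      field_simp
    linarith
  have h10 : |g' ξ| * t < 2 * |g' 0| * t := mul_lt_mul_of_pos_right h9 ht0
  rw [hgt] at ht2'
  linarith

theorem isOpen_U : IsOpen U := isOpen_lt (continuous_fst.abs) continuous_const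

theorem dt_ne (hC : SCoord) (hDt : SDt) {δ : ℝ} (hδ : δ ≠ 0) {d : ℕ → ℕ} (hd : ∀ k, 1 ≤ d k)
    {m : ℕ} (hm : 2 ≤ m) {v : ℝ × ℝ} (hv : v ∈ U) (hy : |Yf δ d m v| < cc δ) :
    dt (Yf δ d m) v ≠ 0 := by
  have h1 : v.1 ^ 2 < 1 := (sq_lt_one_iff_abs_lt_one v.1).2 hv
  have h2 : (orb d (ze δ v) m).y ^ 2 < 1 + δ ^ 2 := by
    have h0 : cc δ ^ 2 = 1 + δ ^ 2 := by
      unfold cc
      exact Real.sq_sqrt (by positivity)
    rw [← h0]
    exact sq_lt_sq' (abs_lt.1 hy).1 (abs_lt.1 hy).2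
  have h3 := (cmpY hδ zero_le_one (by have := sq_pos_of_ne_zero hδ; linarith) hd hm
    ((hC δ).1 v hv) (show (ze δ v).z ^ 2 ≤ 1 from h1.le) h2).2.2
  rw [(hDt δ d m).2.2 v hv]
  exact div_ne_zero (neg_ne_zero.2 h3) (Real.sqrt_pos.2 (by linarith)).ne'

/-- **part `GGap`** -/
theorem tGGap (hG : SLag) (hDt : SDt) (hC : SCoord) : GGap := by
  intro δ d hδ hd M hM z ϑ1 ϑ2 hz hne hz1 hz2
  have hU : ∀ ϑ : ℝ, (z, ϑ) ∈ U := fun ϑ => hz
  have hY := (hDt δ d M).1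
  have hpath : ∀ ϑ : ℝ, HasDerivAt (fun t : ℝ => (z, t)) ((0 : ℝ), (1 : ℝ)) ϑ := fun ϑ =>
    (hasDerivAt_const ϑ z).prodMk (hasDerivAt_id ϑ)
  have hd1 : ∀ ϑ, HasDerivAt (fun t => Yf δ d M (z, t)) (dt (Yf δ d M) (z, ϑ)) ϑ := by
    intro ϑ
    have h1 : DifferentiableAt ℝ (Yf δ d M) (z, ϑ) :=
      (hY.contDiffAt (isOpen_U.mem_nhds (hU ϑ))).differentiableAt (by norm_num)
    exact h1.hasFDerivAt.comp_hasDerivAt ϑ (hpath ϑ)
  have hcd : ContDiffOn ℝ 1 (dt (Yf δ d M)) U := by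
    have h1 : ContDiffOn ℝ 1 (fderiv ℝ (Yf δ d M)) U :=
      hY.fderiv_of_isOpen isOpen_U (by
        have h2 : ((2 : ℕ∞) : WithTop ℕ∞) ≤ ((⊤ : ℕ∞) : WithTop ℕ∞) := WithTop.coe_le_coe.2 le_top
        rw [one_add_one_eq_two]
        exact h2)
    exact h1.clm_apply contDiffOn_const
  have hd2 : ∀ ϑ, HasDerivAt (fun t => dt (Yf δ d M) (z, t)) (dt (dt (Yf δ d M)) (z, ϑ)) ϑ := by
    intro ϑ
    have h1 : DifferentiableAt ℝ (dt (Yf δ d M)) (z, ϑ) :=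
      (hcd.contDiffAt (isOpen_U.mem_nhds (hU ϑ))).differentiableAt (by norm_num)
    exact h1.hasFDerivAt.comp_hasDerivAt ϑ (hpath ϑ)
  have hcc : 0 < cc δ := by
    unfold cc
    exact Real.sqrt_pos.2 (by positivity)
  rcases lt_or_gt_of_ne hne with h | h
  · -- `ϑ1 < ϑ2`
    have hin : ∀ s : ℝ, HasDerivAt (fun s : ℝ => ϑ1 + s) 1 s := fun s =>
      (hasDerivAt_id s).const_add ϑ1
    have h5 := oneD (g := fun s => Yf δ d M (z, ϑ1 + s))
      (g' := fun s => dt (Yf δ d M) (z, ϑ1 + s))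
      (g'' := fun s => dt (dt (Yf δ d M)) (z, ϑ1 + s)) (c := cc δ) (D := ϑ2 - ϑ1) hcc
      (by linarith) (fun s => by
        have h6 := (hd1 (ϑ1 + s)).comp s (hin s)
        rw [mul_one] at h6
        exact h6)
      (fun s => by
        have h6 := (hd2 (ϑ1 + s)).comp s (hin s)
        rw [mul_one] at h6
        exact h6)
      (fun s hs => dt_ne hC hDt hδ hd hM (hU _) hs)
      (fun s hs => hG δ hδ d hd M hM _ (hU _) hs)
      (by simpa using hz1) (by simpa using hz2)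
    rw [abs_of_pos (by linarith : 0 < ϑ2 - ϑ1)]
    simpa using h5
  · -- `ϑ2 < ϑ1`
    have hin : ∀ s : ℝ, HasDerivAt (fun s : ℝ => ϑ1 - s) (-1) s := fun s => by
      simpa using (hasDerivAt_id s).const_sub ϑ1
    have h5 := oneD (g := fun s => Yf δ d M (z, ϑ1 - s))
      (g' := fun s => -dt (Yf δ d M) (z, ϑ1 - s))
      (g'' := fun s => dt (dt (Yf δ d M)) (z, ϑ1 - s)) (c := cc δ) (D := ϑ1 - ϑ2) hcc
      (by linarith) (fun s => by
        have h6 := (hd1 (ϑ1 - s)).comp s (hin s)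
        rw [mul_neg_one] at h6
        exact h6)
      (fun s => by
        have h6 := ((hd2 (ϑ1 - s)).comp s (hin s)).neg
        rw [mul_neg_one, neg_neg] at h6
        exact h6)
      (fun s hs => neg_ne_zero.2 (dt_ne hC hDt hδ hd hM (hU _) hs))
      (fun s hs => by rw [neg_sq]; exact hG δ hδ d hd M hM _ (hU _) hs)
      (by simpa using hz1) (by simpa using hz2)
    rw [abs_of_neg (by linarith : ϑ2 - ϑ1 < 0)]
    simpa using h5

end Pool.Agent.H233.Gi
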