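import Pool.Agent.H666.LRC.Defs

/-! A symmetric double sum near the diagonal. -/

namespace Pool.Agent.H233.LRC

open Finset

theorem up_sum (a b R : ℕ) (P : ℕ → ℕ → ℝ) :
    ∑ n ∈ Finset.Icc a b, ∑ m ∈ (Finset.Icc a b).filter (fun m => n < m ∧ m ≤ n + R), P n m =
      ∑ k ∈ Finset.Icc 1 R, ∑ n ∈ (Finset.Icc a b).filter (fun n => n + k ≤ b), P n (n + k) := by
  have h1 : ∀ n ∈ Finset.Icc a b,
      ∑ m ∈ (Finset.Icc a b).filter (fun m => n < m ∧ m ≤ n + R), P n m =
        ∑ k ∈ (Finset.Icc 1 R).filter (fun k => n + k ≤ b), P n (n + k) := by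
    intro n hn
    rw [Finset.mem_Icc] at hn
    refine Finset.sum_nbij' (fun m => m - n) (fun k => n + k) ?_ ?_ ?_ ?_ ?_
    · intro m hm
      simp only [Finset.mem_filter, Finset.mem_Icc] at hm ⊢
      omega
    · intro k hk
      simp only [Finset.mem_filter, Finset.mem_Icc] at hk ⊢
      omega
    · intro m hm
      simp only [Finset.mem_filter, Finset.mem_Icc] at hm ⊢
      omega
    · intro k hk
      simp only [Finset.mem_filter, Finset.mem_Icc] at hk ⊢
      omega
    · intro m hm
      simp only [Finset.mem_filter, Finset.mem_Icc] at hm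
      have : n + (m - n) = m := by omega
      rw [this]
  rw [Finset.sum_congr rfl h1]
  simp only [Finset.sum_filter]
  exact Finset.sum_comm

theorem T11 : Pool.Agent.H666.LRC.S_comb := by
  intro a b R P hP
  have hsplit : ∀ n ∈ Finset.Icc a b,
      ∑ m ∈ (Finset.Icc a b).filter (fun m => n ≤ m + R ∧ m ≤ n + R), P n m =
        P n n + ∑ m ∈ (Finset.Icc a b).filter (fun m => n < m ∧ m ≤ n + R), P n m +
          ∑ m ∈ (Finset.Icc a b).filter (fun m => m < n ∧ n ≤ m + R), P n m := by
    intro n hn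
    have h0 : P n n = ∑ m ∈ Finset.Icc a b, if m = n then P n m else 0 := by
      rw [Finset.sum_ite_eq' (Finset.Icc a b) n (fun m => P n m), if_pos hn]
    rw [h0]
    simp only [Finset.sum_filter]
    rw [← Finset.sum_add_distrib, ← Finset.sum_add_distrib]
    apply Finset.sum_congr rfl
    intro m hm
    rcases lt_trichotomy m n with h | h | h
    · have e1 : ¬ (m = n) := by omega
      have e2 : ¬ (n < m ∧ m ≤ n + R) := by omega
      rw [if_neg e1, if_neg e2]
      by_cases h3 : n ≤ m + R
      · rw [if_pos ⟨h3, by omega⟩, if_pos ⟨h, h3⟩]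
        ring
      · rw [if_neg (fun hh => h3 hh.1), if_neg (fun hh => h3 hh.2)]
        ring
    · subst h
      rw [if_pos ⟨by omega, by omega⟩, if_pos rfl, if_neg (by omega)]
      ring
    · have e1 : ¬ (m = n) := by omega
      have e2 : ¬ (m < n ∧ n ≤ m + R) := by omega
      rw [if_neg e1, if_neg e2]
      by_cases h3 : m ≤ n + R
      · rw [if_pos ⟨by omega, h3⟩, if_pos ⟨h, h3⟩]
        ring
      · rw [if_neg (fun hh => h3 hh.2), if_neg (fun hh => h3 hh.2)]
        ring
  rw [Finset.sum_congr rfl hsplit, Finset.sum_add_distrib, Finset.sum_add_distrib]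
  have hlow : ∑ n ∈ Finset.Icc a b,
      ∑ m ∈ (Finset.Icc a b).filter (fun m => m < n ∧ n ≤ m + R), P n m =
      ∑ n ∈ Finset.Icc a b,
        ∑ m ∈ (Finset.Icc a b).filter (fun m => n < m ∧ m ≤ n + R), P n m := by
    simp only [Finset.sum_filter]
    rw [Finset.sum_comm]
    apply Finset.sum_congr rfl
    intro m _
    apply Finset.sum_congr rfl
    intro n _
    rw [hP n m]
  rw [hlow, up_sum]
  ring

end Pool.Agent.H233.LRC
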