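import Pool.Agent.H691.MM.Grid
import Pool.Graph.R_seed8.W654.TA_F3

/-!
# Max-min area triangulations, part F1: the fast check of a family is sound (helper233)
-/

set_option autoImplicit false

namespace Pool.Agent.H691.MM

open Pool.Agent.W982.TA Pool.Agent.H691.Geo Pool.Agent.NPC

/-! ### entries -/

/-- the content of the check of an entry -/
structure F1_EN (t s : ℕ) (e : Ent) : Prop where
  x : e.x < 21
  y : e.y < 39
  gu : Int.gcd ((e.ux : ℤ) - 8) (e.uy : ℤ) = 1
  gd : Int.gcd ((e.dx : ℤ) - 8) (e.dy : ℤ) = 1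
  uy : 2 ≤ e.uy
  dy : 2 ≤ e.dy
  dy8 : e.dy ≤ e.y + 8
  l0 : hasL t = false → 8 ≤ e.x + e.ux ∧ 8 ≤ e.x + e.dx
  l1 : hasL t = true → e.x < 3 → (e.y = 20 ∨ e.y = 21) ∧ e.vec true = stdv (hsig t s) true ∧
    e.vec false = stdv (hsig t s) false
  l2 : hasL t = true → 3 ≤ e.x → 9 ≤ e.x + e.ux ∧ 9 ≤ e.x + e.dx
  r1 : 18 ≤ e.x → (e.y = 20 ∨ e.y = 21) ∧ e.vec true = stdv (hsig t s) true ∧
    e.vec false = stdv (hsig t s) false
  r2 : e.x < 18 → e.x + e.ux ≤ 27 ∧ e.x + e.dx ≤ 27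
  b1 : e.y < 3 → botx t = some e.x ∧ e.vec true = stdv (vbot t s) true ∧
    e.vec false = stdv (vbot t s) false
  b2 : 3 ≤ e.y → e.dy + 1 ≤ e.y
  t1 : 36 ≤ e.y → topx t = some e.x ∧ e.vec true = stdv (vtop t s) true ∧
    e.vec false = stdv (vtop t s) false
  t2 : e.y < 36 → e.y + e.uy ≤ 37

theorem f1_EN {t s : ℕ} {e : Ent} (h : entN t s e = true) : F1_EN t s e := by
  unfold entN at h
  simp only [Bool.and_eq_true, decide_eq_true_eq] at h
  obtain ⟨⟨⟨⟨⟨⟨⟨⟨⟨⟨h1, h2⟩, h3⟩, h4⟩, h5⟩, h6⟩, h7⟩, h8⟩, h9⟩, h10⟩, h11⟩ := h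
  refine ⟨h1, h2, h3, h4, h5, h6, h7, ?_, ?_, ?_, ?_, ?_, ?_, ?_, ?_, ?_⟩
  · intro hL
    rw [if_neg (by rw [hL]; simp)] at h8
    simp only [Bool.and_eq_true, decide_eq_true_eq] at h8
    exact h8
  · intro hL hx
    rw [if_pos hL, if_pos hx] at h8
    simp only [Bool.and_eq_true, Bool.or_eq_true, decide_eq_true_eq] at h8
    exact ⟨h8.1.1, h8.1.2, h8.2⟩
  · intro hL hx
    rw [if_pos hL, if_neg (not_lt.2 hx)] at h8
    simp only [Bool.and_eq_true, decide_eq_true_eq] at h8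
    exact h8
  · intro hx
    rw [if_pos hx] at h9
    simp only [Bool.and_eq_true, Bool.or_eq_true, decide_eq_true_eq] at h9
    exact ⟨h9.1.1, h9.1.2, h9.2⟩
  · intro hx
    rw [if_neg (not_le.2 hx)] at h9
    simp only [Bool.and_eq_true, decide_eq_true_eq] at h9
    exact h9
  · intro hx
    rw [if_pos hx] at h10
    simp only [Bool.and_eq_true, decide_eq_true_eq] at h10
    exact ⟨h10.1.1, h10.1.2, h10.2⟩
  · intro hx
    rw [if_neg (not_lt.2 hx)] at h10
    simpa only [decide_eq_true_eq] using h10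
  · intro hx
    rw [if_pos hx] at h11
    simp only [Bool.and_eq_true, decide_eq_true_eq] at h11
    exact ⟨h11.1.1, h11.1.2, h11.2⟩
  · intro hx
    rw [if_neg (not_le.2 hx)] at h11
    simpa only [decide_eq_true_eq] using h11

theorem f1_look (L : List Ent) (c : ℕ × ℕ) (hc : c ∈ L.map (fun e => (e.x, e.y))) :
    ∃ e ∈ L, e.x = c.1 ∧ e.y = c.2 ∧ ∀ up, look L c.1 c.2 up = e.vec up := by
  rw [List.mem_map] at hc
  obtain ⟨e₀, he₀, rfl⟩ := hc
  obtain ⟨e, he⟩ : ∃ e, L.find? (fun e => Nat.beq e.x e₀.x && Nat.beq e.y e₀.y) = some e := by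
    cases h : L.find? (fun e => Nat.beq e.x e₀.x && Nat.beq e.y e₀.y) with
    | none =>
      rw [List.find?_eq_none] at h
      have h1 := h e₀ he₀
      simp at h1
    | some e => exact ⟨e, rfl⟩
  have h1 := List.find?_some he
  have h2 := List.mem_of_find?_eq_some he
  simp only [Bool.and_eq_true, Nat.beq_eq] at h1
  refine ⟨e, h2, h1.1, h1.2, fun up => ?_⟩
  unfold look
  simp only [he]

/-! ### segments -/

/-- lower endpoint -/
def f1_a (s : SegN) : Pt := ((s.a1 : ℤ), (s.a2 : ℤ))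
/-- upper endpoint -/
def f1_b (s : SegN) : Pt := ((s.b1 : ℤ), (s.b2 : ℤ))

theorem f1_dt (a1 a2 b1 b2 c1 c2 : ℕ) :
    dt ((a1 : ℤ), (a2 : ℤ)) ((b1 : ℤ), (b2 : ℤ)) ((c1 : ℤ), (c2 : ℤ)) =
      (dpN a1 a2 b1 b2 c1 c2 : ℤ) - (dnN a1 a2 b1 b2 c1 c2 : ℤ) := by
  unfold dt dpN dnN
  simp only [Nat.add_eq, Nat.mul_eq]
  push_cast
  ring

theorem f1_opp (a1 a2 b1 b2 c1 c2 d1 d2 : ℕ)
    (h : dt ((a1 : ℤ), (a2 : ℤ)) ((b1 : ℤ), (b2 : ℤ)) ((c1 : ℤ), (c2 : ℤ)) *
      dt ((a1 : ℤ), (a2 : ℤ)) ((b1 : ℤ), (b2 : ℤ)) ((d1 : ℤ), (d2 : ℤ)) < 0) :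
    oppN a1 a2 b1 b2 c1 c2 d1 d2 = true := by
  rw [f1_dt, f1_dt] at h
  unfold oppN
  simp only [Bool.or_eq_true, Bool.and_eq_true, Nat.blt_eq]
  rcases mul_neg_iff.1 h with ⟨h1, h2⟩ | ⟨h1, h2⟩
  · right
    constructor <;> omega
  · left
    constructor <;> omega

theorem f1_symm {a b c d : Pt} (h : PCross a b c d) : PCross c d a b := ⟨h.2, h.1⟩

theorem f1_swap {a b c d : Pt} (h : PCross a b c d) : PCross b a c d := by
  unfold PCross at h ⊢
  have e1 : dt b a c * dt b a d = dt a b c * dt a b d := by unfold dt; ring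
  have e2 : dt c d b * dt c d a = dt c d a * dt c d b := by ring
  rw [e1, e2]
  exact h

theorem f1_trans {a b c d v : Pt} (h : PCross a b c d) :
    PCross (a + v) (b + v) (c + v) (d + v) := by
  unfold PCross at h ⊢
  have e : ∀ x y z : Pt, dt (x + v) (y + v) (z + v) = dt x y z := by
    intro x y z
    unfold dt
    simp only [Prod.fst_add, Prod.snd_add]
    ring
  rw [e, e, e, e]
  exact h

theorem f1_self (a b : Pt) : ¬ PCross a b a b := by
  rintro ⟨h, -⟩
  have : dt a b a = 0 := by unfold dt; ring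
  rw [this, zero_mul] at h
  exact lt_irrefl _ h

theorem f1_nx {s r : SegN} (hs : s.a2 ≤ s.b2) (hr : r.a2 ≤ r.b2) (h : nxN s r = true) :
    ¬ PCross (f1_a s) (f1_b s) (f1_a r) (f1_b r) := by
  unfold nxN at h
  simp only [Bool.or_eq_true, Nat.ble_eq] at h
  rcases h with (h | h) | h
  · refine (f3 (f1_a s) (f1_b s) (f1_a r) (f1_b r) (s.b2 : ℤ)).2 ?_ ?_ ?_ ?_ <;>
      simp only [f1_a, f1_b] <;> omega
  · intro hc
    refine (f3 (f1_a r) (f1_b r) (f1_a s) (f1_b s) (r.b2 : ℤ)).2 ?_ ?_ ?_ ?_ (f1_symm hc) <;>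
      simp only [f1_a, f1_b] <;> omega
  · rintro ⟨h1, h2⟩
    have e1 := f1_opp s.a1 s.a2 s.b1 s.b2 r.a1 r.a2 r.b1 r.b2 h1
    have e2 := f1_opp r.a1 r.a2 r.b1 r.b2 s.a1 s.a2 s.b1 s.b2 h2
    rw [e1, e2] at h
    simp at h

theorem f1_pairs : ∀ (l : List SegN), pairsN l = true → ∀ s ∈ l, ∀ r ∈ l,
    s = r ∨ nxN s r = true ∨ nxN r s = true := by
  intro l
  induction l with
  | nil => intro _ s hs; simp at hs
  | cons a l ih =>
    intro h s hs r hr
    rw [pairsN, Bool.and_eq_true, List.all_eq_true] at h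
    rcases List.mem_cons.1 hs with h1 | h1
    · rcases List.mem_cons.1 hr with h2 | h2
      · left; rw [h1, h2]
      · right; left; rw [h1]; exact h.1 r h2
    · rcases List.mem_cons.1 hr with h2 | h2
      · right; right; rw [h2]; exact h.1 s h1
      · exact ih h.2 s h1 r h2

/-- the segment represents the pair of points, shifted by 8 -/
def F1_Rep (s : SegN) (p q : Pt) : Prop := s.a2 ≤ s.b2 ∧
  ((f1_a s = p + (8, 8) ∧ f1_b s = q + (8, 8)) ∨ (f1_a s = q + (8, 8) ∧ f1_b s = p + (8, 8)))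

theorem f1_rep {l : List SegN} (hl : pairsN l = true) {s r : SegN} (hs : s ∈ l) (hr : r ∈ l)
    {p q p' q' : Pt} (h1 : F1_Rep s p q) (h2 : F1_Rep r p' q') : ¬ PCross p q p' q' := by
  intro hc
  have hn : ¬ PCross (f1_a s) (f1_b s) (f1_a r) (f1_b r) := by
    rcases f1_pairs l hl s hs r hr with h | h | h
    · rw [h]; exact f1_self _ _
    · exact f1_nx h1.1 h2.1 h
    · intro hx
      exact f1_nx h2.1 h1.1 h (f1_symm hx)
  apply hn
  have hc' := f1_trans (v := (8, 8)) hc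
  rcases h1.2 with ⟨e1, e2⟩ | ⟨e1, e2⟩ <;> rcases h2.2 with ⟨e3, e4⟩ | ⟨e3, e4⟩ <;>
    rw [e1, e2, e3, e4]
  · exact hc'
  · exact f1_symm (f1_swap (f1_symm hc'))
  · exact f1_swap hc'
  · exact f1_swap (f1_symm (f1_swap (f1_symm hc')))

theorem f1_segs {t s : ℕ} {e : Ent} (he : F1_EN t s e) (c : ℕ × ℕ) (h1 : e.x = c.1)
    (h2 : e.y = c.2) (up : Bool) : ∃ r ∈ e.segs, F1_Rep r (cp c) (cp c + e.vec up) := by
  have h3 := he.dy8
  cases up
  · refine ⟨⟨e.x + e.dx, e.y + 8 - e.dy, e.x + 8, e.y + 8⟩, by simp [Ent.segs], ?_, Or.inr ⟨?_, ?_⟩⟩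
    · simp only
      omega
    · ext
      · simp only [f1_a, cp, Ent.vec, Bool.false_eq_true, if_false, Prod.fst_add]
        push_cast
        rw [← h1]
        ring
      · simp only [f1_a, cp, Ent.vec, Bool.false_eq_true, if_false, Prod.snd_add]
        rw [← h2]
        omega
    · ext
      · simp only [f1_b, cp, Prod.fst_add]
        rw [← h1]
        push_cast
        ring
      · simp only [f1_b, cp, Prod.snd_add]
        rw [← h2]
        push_cast
        ring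
  · refine ⟨⟨e.x + 8, e.y + 8, e.x + e.ux, e.y + 8 + e.uy⟩, by simp [Ent.segs], ?_, Or.inl ⟨?_, ?_⟩⟩
    · simp only
      omega
    · ext
      · simp only [f1_a, cp, Prod.fst_add]
        rw [← h1]
        push_cast
        ring
      · simp only [f1_a, cp, Prod.snd_add]
        rw [← h2]
        push_cast
        ring
    · ext
      · simp only [f1_b, cp, Ent.vec, if_true, Prod.fst_add]
        rw [← h1]
        push_cast
        ring
      · simp only [f1_b, cp, Ent.vec, if_true, Prod.snd_add]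
        rw [← h2]
        push_cast
        ring

/-! ### ghosts -/

theorem f1_ghosts (t s : ℕ) : ∀ q ∈ ghosts t s, -3 ≤ q.1.1 ∧ -3 ≤ q.1.2 := by
  intro q hq
  unfold ghosts at hq
  rw [List.mem_append, List.mem_append, List.mem_append] at hq
  rcases hq with ((hq | hq) | hq) | hq
  · split_ifs at hq
    · simp only [List.mem_cons, List.not_mem_nil, or_false] at hq
      rcases hq with rfl | rfl | rfl | rfl | rfl | rfl <;> norm_num
    · simp at hq
  · simp only [List.mem_cons, List.not_mem_nil, or_false] at hq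
    rcases hq with rfl | rfl | rfl | rfl | rfl | rfl <;> norm_num
  · cases h : topx t with
    | none => rw [h] at hq; simp at hq
    | some x =>
      rw [h] at hq
      simp only [List.mem_cons, List.not_mem_nil, or_false] at hq
      have : (0 : ℤ) ≤ x := Int.natCast_nonneg x
      rcases hq with rfl | rfl | rfl <;> simp only <;> omega
  · cases h : botx t with
    | none => rw [h] at hq; simp at hq
    | some x =>
      rw [h] at hq
      simp only [List.mem_cons, List.not_mem_nil, or_false] at hq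
      have : (0 : ℤ) ≤ x := Int.natCast_nonneg x
      rcases hq with rfl | rfl | rfl <;> simp only <;> omega

theorem f1_gsegs (q : Pt × Bool) (h1 : -3 ≤ q.1.1) (h2 : -3 ≤ q.1.2) (up : Bool) :
    ∃ r ∈ gsegs q, F1_Rep r q.1 (q.1 + stdv q.2 up) := by
  obtain ⟨⟨x, y⟩, b⟩ := q
  simp only at h1 h2
  have e1 : (((x + 8).toNat : ℕ) : ℤ) = x + 8 := Int.toNat_of_nonneg (by omega)
  have e2 : (((y + 8).toNat : ℕ) : ℤ) = y + 8 := Int.toNat_of_nonneg (by omega)
  cases b <;> cases up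
  · refine ⟨⟨(x + 8).toNat + 1, (y + 8).toNat - 2, (x + 8).toNat, (y + 8).toNat⟩,
      by simp [gsegs, sh], ?_, Or.inr ⟨?_, ?_⟩⟩
    · simp only
      omega
    · ext
      · simp [f1_a, stdv]
        omega
      · simp [f1_a, stdv]
        omega
    · ext
      · simp [f1_b]
        omega
      · simp [f1_b]
        omega
  · refine ⟨⟨(x + 8).toNat, (y + 8).toNat, (x + 8).toNat - 1, (y + 8).toNat + 2⟩,
      by simp [gsegs, sh], ?_, Or.inl ⟨?_, ?_⟩⟩
    · simp only
      omega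
    · ext
      · simp [f1_a]
        omega
      · simp [f1_a]
        omega
    · ext
      · simp [f1_b, stdv]
        omega
      · simp [f1_b, stdv]
        omega
  · refine ⟨⟨(x + 8).toNat - 1, (y + 8).toNat - 2, (x + 8).toNat, (y + 8).toNat⟩,
      by simp [gsegs, sh], ?_, Or.inr ⟨?_, ?_⟩⟩
    · simp only
      omega
    · ext
      · simp [f1_a, stdv]
        omega
      · simp [f1_a, stdv]
        omega
    · ext
      · simp [f1_b]
        omega
      · simp [f1_b]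
        omega
  · refine ⟨⟨(x + 8).toNat, (y + 8).toNat, (x + 8).toNat + 1, (y + 8).toNat + 2⟩,
      by simp [gsegs, sh], ?_, Or.inl ⟨?_, ?_⟩⟩
    · simp only
      omega
    · ext
      · simp [f1_a]
        omega
      · simp [f1_a]
        omega
    · ext
      · simp [f1_b, stdv]
        omega
      · simp [f1_b, stdv]
        omega

/-- **F1.** The check is sound. -/
theorem f1 : TaskF1 := by
  intro t s h
  unfold famOK at h
  rw [Bool.and_eq_true, Bool.and_eq_true, Bool.and_eq_true, Bool.and_eq_true] at h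
  obtain ⟨⟨⟨⟨h1, h2⟩, h3⟩, h4⟩, h5⟩ := h
  have h1' : (fam t s).map (fun e => (e.x, e.y)) = cells t := by simpa using h1
  have hlook : ∀ c ∈ cells t, ∃ e ∈ fam t s, e.x = c.1 ∧ e.y = c.2 ∧
      (∀ up, look (fam t s) c.1 c.2 up = e.vec up) ∧ F1_EN t s e := by
    intro c hc
    rw [← h1'] at hc
    obtain ⟨e, he, e1, e2, e3⟩ := f1_look _ c hc
    rw [List.all_eq_true] at h2
    exact ⟨e, he, e1, e2, e3, f1_EN (h2 e he)⟩
  have vt1 : ∀ e : Ent, (e.vec true).1 = (e.ux : ℤ) - 8 := fun _ => rfl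
  have vt2 : ∀ e : Ent, (e.vec true).2 = (e.uy : ℤ) := fun _ => rfl
  have vf1 : ∀ e : Ent, (e.vec false).1 = (e.dx : ℤ) - 8 := fun _ => rfl
  have vf2 : ∀ e : Ent, (e.vec false).2 = -(e.dy : ℤ) := fun _ => rfl
  refine ⟨?_, ?_, ?_, ?_, ?_, ?_, ?_, ?_, ?_, ?_, ?_, ?_, ?_, ?_, ?_, ?_, ?_⟩
  · intro c hc
    obtain ⟨e, -, e1, e2, -, hE⟩ := hlook c hc
    rw [← e1, ← e2]
    exact ⟨hE.x, hE.y⟩
  · intro c hc up
    obtain ⟨e, -, -, -, e3, hE⟩ := hlook c hc
    rw [e3]
    cases up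
    · rw [vf1, vf2, Int.gcd_neg]
      exact hE.gd
    · rw [vt1, vt2]
      exact hE.gu
  · intro c hc
    obtain ⟨e, -, -, -, e3, hE⟩ := hlook c hc
    rw [e3, vt2]
    have := hE.uy
    omega
  · intro c hc
    obtain ⟨e, -, -, -, e3, hE⟩ := hlook c hc
    rw [e3, vf2]
    have := hE.dy
    omega
  · intro hL c hc up
    obtain ⟨e, -, e1, e2, e3, hE⟩ := hlook c hc
    have := hE.l0 hL
    rw [e3, ← e1]
    cases up
    · rw [vf1]; omega
    · rw [vt1]; omega
  · intro hL c hc hx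
    obtain ⟨e, -, e1, e2, e3, hE⟩ := hlook c hc
    have h6 := hE.l1 hL (by rw [e1]; exact hx)
    rw [← e2]
    refine ⟨h6.1, fun up => ?_⟩
    rw [e2, e3]
    cases up
    · exact h6.2.2
    · exact h6.2.1
  · intro hL c hc hx up
    obtain ⟨e, -, e1, e2, e3, hE⟩ := hlook c hc
    have := hE.l2 hL (by rw [e1]; exact hx)
    rw [e3, ← e1]
    cases up
    · rw [vf1]; omega
    · rw [vt1]; omega
  · intro c hc hx
    obtain ⟨e, -, e1, e2, e3, hE⟩ := hlook c hc
    have h6 := hE.r1 (by rw [e1]; exact hx)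
    rw [← e2]
    refine ⟨h6.1, fun up => ?_⟩
    rw [e2, e3]
    cases up
    · exact h6.2.2
    · exact h6.2.1
  · intro c hc hx up
    obtain ⟨e, -, e1, e2, e3, hE⟩ := hlook c hc
    have := hE.r2 (by rw [e1]; exact hx)
    rw [e3, ← e1]
    cases up
    · rw [vf1]; omega
    · rw [vt1]; omega
  · intro c hc hx
    obtain ⟨e, -, e1, e2, e3, hE⟩ := hlook c hc
    have h6 := hE.b1 (by rw [e2]; exact hx)
    rw [← e1]
    refine ⟨h6.1, fun up => ?_⟩
    rw [e1, e3]
    cases up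
    · exact h6.2.2
    · exact h6.2.1
  · intro c hc hx up
    obtain ⟨e, -, e1, e2, e3, hE⟩ := hlook c hc
    have h6 := hE.b2 (by rw [e2]; exact hx)
    rw [e3, ← e2]
    cases up
    · rw [vf2]; omega
    · rw [vt2]; omega
  · intro c hc hx
    obtain ⟨e, -, e1, e2, e3, hE⟩ := hlook c hc
    have h6 := hE.t1 (by rw [e2]; exact hx)
    rw [← e1]
    refine ⟨h6.1, fun up => ?_⟩
    rw [e1, e3]
    cases up
    · exact h6.2.2
    · exact h6.2.1
  · intro c hc hx up
    obtain ⟨e, -, e1, e2, e3, hE⟩ := hlook c hc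
    have h6 := hE.t2 (by rw [e2]; exact hx)
    rw [e3, ← e2]
    cases up
    · rw [vf2]; omega
    · rw [vt2]; omega
  · intro c hc c' hc' up up'
    obtain ⟨e, he, e1, e2, e3, hE⟩ := hlook c hc
    obtain ⟨e', he', e1', e2', e3', hE'⟩ := hlook c' hc'
    rw [e3, e3']
    obtain ⟨r, hr, hrep⟩ := f1_segs hE c e1 e2 up
    obtain ⟨r', hr', hrep'⟩ := f1_segs hE' c' e1' e2' up'
    exact f1_rep h5 (List.mem_append_left _ (List.mem_flatMap.2 ⟨e, he, hr⟩))
      (List.mem_append_left _ (List.mem_flatMap.2 ⟨e', he', hr'⟩)) hrep hrep'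
  · intro c hc q hq up up'
    obtain ⟨e, he, e1, e2, e3, hE⟩ := hlook c hc
    rw [e3]
    obtain ⟨r, hr, hrep⟩ := f1_segs hE c e1 e2 up
    obtain ⟨g1, g2⟩ := f1_ghosts t s q hq
    obtain ⟨r', hr', hrep'⟩ := f1_gsegs q g1 g2 up'
    exact f1_rep h5 (List.mem_append_left _ (List.mem_flatMap.2 ⟨e, he, hr⟩))
      (List.mem_append_right _ (List.mem_flatMap.2 ⟨q, hq, hr'⟩)) hrep hrep'
  · intro c hc up c' hc' heq
    obtain ⟨e, he, e1, e2, e3, hE⟩ := hlook c hc
    obtain ⟨e', he', e1', e2', e3', hE'⟩ := hlook c' hc'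
    rw [e3] at heq
    rw [List.all_eq_true] at h3
    have h6 := h3 e he
    rw [List.all_eq_true] at h6
    have h7 := h6 e' he'
    rw [Bool.and_eq_true] at h7
    have q1 := congrArg Prod.fst heq
    have q2 := congrArg Prod.snd heq
    simp only [cp, Prod.fst_add, Prod.snd_add] at q1 q2
    cases up
    · rw [vf1] at q1
      rw [vf2] at q2
      have p1 : e.x + e.dx = e'.x + 8 := by omega
      have p2 : e.y = e'.y + e'.dy ∨ e.y = e'.y + e.dy := by right; omega
      have p3 : e.y = e'.y + e.dy := by omega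
      have h8 := h7.2
      rw [p1, p3] at h8
      simp at h8
    · rw [vt1] at q1
      rw [vt2] at q2
      have p1 : e.x + e.ux = e'.x + 8 := by omega
      have p2 : e.y + e.uy = e'.y := by omega
      have h8 := h7.1
      rw [p1, p2] at h8
      simp at h8
  · intro c hc up q hq heq
    obtain ⟨e, he, e1, e2, e3, hE⟩ := hlook c hc
    rw [e3] at heq
    rw [List.all_eq_true] at h4
    have h6 := h4 e he
    rw [List.all_eq_true] at h6
    have h7 := h6 q hq
    rw [Bool.and_eq_true] at h7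
    obtain ⟨g1, g2⟩ := f1_ghosts t s q hq
    have q1 := congrArg Prod.fst heq
    have q2 := congrArg Prod.snd heq
    simp only [cp, Prod.fst_add, Prod.snd_add] at q1 q2
    have s1 : (((sh q.1).1 : ℕ) : ℤ) = q.1.1 + 8 := Int.toNat_of_nonneg (by omega)
    have s2 : (((sh q.1).2 : ℕ) : ℤ) = q.1.2 + 8 := Int.toNat_of_nonneg (by omega)
    cases up
    · rw [vf1] at q1
      rw [vf2] at q2
      have p1 : e.x + e.dx = (sh q.1).1 := by omega
      have p3 : e.y + 8 = (sh q.1).2 + e.dy := by omega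
      have h8 := h7.2
      rw [p1, p3] at h8
      simp at h8
    · rw [vt1] at q1
      rw [vt2] at q2
      have p1 : e.x + e.ux = (sh q.1).1 := by omega
      have p2 : e.y + 8 + e.uy = (sh q.1).2 := by omega
      have h8 := h7.1
      rw [p1, p2] at h8
      simp at h8

end Pool.Agent.H691.MM
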